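import Pool.Agent.Y315.NL.Stm

/-!
# Project NL: bounded solutions of the radial equation `u'' = (k² - V) u`
-/

set_option autoImplicit false

open Set Filter Topology

namespace Pool.Agent.Y970.NL
open Pool.Agent.Y315.NL

lemma mono_of {f f' : ℝ → ℝ} {a x y : ℝ} (h : ∀ x, HasDerivAt f (f' x) x)
    (h0 : ∀ t, a ≤ t → 0 ≤ f' t) (hax : a ≤ x) (hxy : x ≤ y) : f x ≤ f y := by
  have hm : MonotoneOn f (Set.Ici a) := by
    apply monotoneOn_of_deriv_nonneg (convex_Ici a)
    · exact fun t _ => (h t).continuousAt.continuousWithinAt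
    · exact fun t _ => (h t).differentiableAt.differentiableWithinAt
    · intro t ht
      rw [(h t).deriv]
      exact h0 t (interior_subset ht)
  exact hm hax (hax.trans hxy) hxy

/-- the derivative of a convex function bounded above on a half line is nonpositive -/
lemma conv_le {g g1 g2 : ℝ → ℝ} {a C : ℝ} (h : ∀ x, HasDerivAt g (g1 x) x)
    (h1 : ∀ x, HasDerivAt g1 (g2 x) x) (h2 : ∀ x, a ≤ x → 0 ≤ g2 x) (hC : ∀ x, a ≤ x → g x ≤ C)
    (x : ℝ) (hx : a ≤ x) : g1 x ≤ 0 := by
  by_contra hc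
  push Not at hc
  have hCx := hC x hx
  set y : ℝ := x + (C - g x + 1) / g1 x with hy
  have hxy : x ≤ y := by
    have : 0 ≤ (C - g x + 1) / g1 x := div_nonneg (by linarith) hc.le
    linarith
  have key := mono_of (f := fun t => g t - g1 x * t) (f' := fun t => g1 t - g1 x) (a := x)
    (fun t => by
      have := (h t).fun_sub ((hasDerivAt_id' t).const_mul (g1 x))
      simpa using this)
    (fun t ht => by
      have := mono_of h1 h2 hx ht
      linarith) le_rfl hxy
  have e : g1 x * y = g1 x * x + (C - g x + 1) := by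
    rw [hy]; field_simp
  have := hC y (hx.trans hxy)
  linarith

/-- the hypotheses of `S_ASY` -/
structure Hyp (k : ℕ) (B M : ℝ) (V u u1 : ℝ → ℝ) : Prop where
  hV : ∀ x, 0 ≤ V x ∧ V x ≤ B * Real.exp (-2 * |x|)
  hu : ∀ x, HasDerivAt u (u1 x) x
  hu1 : ∀ x, HasDerivAt u1 (((k : ℝ) ^ 2 - V x) * u x) x
  hM : ∀ x, |u x| ≤ M

variable {k : ℕ} {B M : ℝ} {V u u1 : ℝ → ℝ}

lemma Hyp.refl (H : Hyp k B M V u u1) :
    Hyp k B M (fun x => V (-x)) (fun x => u (-x)) (fun x => -u1 (-x)) where
  hV x := by have := H.hV (-x); rwa [abs_neg] at this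
  hu x := by
    have := (H.hu (-x)).comp x (hasDerivAt_neg x)
    simpa [Function.comp_def] using this
  hu1 x := by
    have := ((H.hu1 (-x)).comp x (hasDerivAt_neg x)).fun_neg
    simpa [Function.comp_def] using this
  hM x := H.hM (-x)

lemma Hyp.B_nonneg (H : Hyp k B M V u u1) : 0 ≤ B := by
  have h := H.hV 0
  simp at h
  linarith

lemma Hyp.M_nonneg (H : Hyp k B M V u u1) : 0 ≤ M := (abs_nonneg _).trans (H.hM 0)

lemma Hyp.V_le (H : Hyp k B M V u u1) (x : ℝ) : V x ≤ B := by
  have h1 := (H.hV x).2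
  have h2 : Real.exp (-2 * |x|) ≤ 1 := by
    rw [Real.exp_le_one_iff]
    have := abs_nonneg x
    linarith
  have h3 := H.B_nonneg
  nlinarith

lemma Hyp.g (H : Hyp k B M V u u1) (x : ℝ) :
    HasDerivAt (fun t => u t ^ 2) (2 * u x * u1 x) x := by
  have := (H.hu x).fun_pow 2
  simpa [mul_assoc] using this

lemma Hyp.g1 (H : Hyp k B M V u u1) (x : ℝ) :
    HasDerivAt (fun t => 2 * u t * u1 t)
      (2 * u1 x ^ 2 + 2 * ((k : ℝ) ^ 2 - V x) * u x ^ 2) x := by
  have h := ((H.hu x).const_mul 2).fun_mul (H.hu1 x)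
  have e : 2 * u1 x ^ 2 + 2 * ((k : ℝ) ^ 2 - V x) * u x ^ 2 =
      2 * u1 x * u1 x + 2 * u x * (((k : ℝ) ^ 2 - V x) * u x) := by ring
  rw [e]
  exact h

lemma Hyp.g_le (H : Hyp k B M V u u1) (x : ℝ) : u x ^ 2 ≤ M ^ 2 := by
  rw [← sq_abs]
  exact pow_le_pow_left₀ (abs_nonneg _) (H.hM x) 2

/-- where `V ≤ k²` the square of `u` decreases -/
lemma Hyp.g1_nonpos (H : Hyp k B M V u u1) {a : ℝ} (ha : ∀ x, a ≤ x → V x ≤ (k : ℝ) ^ 2)
    (x : ℝ) (hx : a ≤ x) : 2 * u x * u1 x ≤ 0 := by
  refine conv_le H.g H.g1 (a := a) (C := M ^ 2) (fun t ht => ?_) (fun t _ => H.g_le t) x hx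
  have := ha t ht
  have : 0 ≤ 2 * ((k : ℝ) ^ 2 - V t) * u t ^ 2 := by
    apply mul_nonneg (by linarith) (sq_nonneg _)
  have := sq_nonneg (u1 t)
  linarith

lemma Hyp.g_anti (H : Hyp k B M V u u1) {a : ℝ} (ha : ∀ x, a ≤ x → V x ≤ (k : ℝ) ^ 2)
    {x y : ℝ} (hx : a ≤ x) (hxy : x ≤ y) : u y ^ 2 ≤ u x ^ 2 := by
  have := mono_of (f := fun t => -(u t ^ 2)) (f' := fun t => -(2 * u t * u1 t)) (a := a)
    (fun t => (H.g t).fun_neg) (fun t ht => by have := H.g1_nonpos ha t ht; linarith) hx hxy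
  linarith

lemma exp_small (B ε : ℝ) (hε : 0 < ε) : ∃ R : ℝ, 0 ≤ R ∧ ∀ x, R ≤ x → B * Real.exp (-2 * x) ≤ ε := by
  have h : Tendsto (fun x : ℝ => B * Real.exp (-2 * x)) atTop (𝓝 (B * 0)) := by
    apply Tendsto.const_mul
    have h1 : Tendsto (fun x : ℝ => -2 * x) atTop atBot :=
      tendsto_id.const_mul_atTop_of_neg (by norm_num)
    exact Real.tendsto_exp_atBot.comp h1
  rw [mul_zero] at h
  obtain ⟨R, hR⟩ := eventually_atTop.1 (h.eventually (gt_mem_nhds hε))
  exact ⟨max R 0, le_max_right _ _, fun x hx => (hR x ((le_max_left _ _).trans hx)).le⟩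

/-- `k ≥ 1`: decay at `+∞` -/
lemma Hyp.tendsto_pos (H : Hyp k B M V u u1) (hk : k ≠ 0) : Tendsto u atTop (𝓝 0) := by
  have hk1 : (1 : ℝ) ≤ (k : ℝ) ^ 2 := by
    have : (1 : ℝ) ≤ k := by exact_mod_cast Nat.one_le_iff_ne_zero.2 hk
    nlinarith
  obtain ⟨R, hR0, hR⟩ := exp_small B (1 / 2) (by norm_num)
  have hV2 : ∀ x, R ≤ x → V x ≤ 1 / 2 := by
    intro x hx
    have h1 := (H.hV x).2
    rw [abs_of_nonneg (hR0.trans hx)] at h1
    exact h1.trans (hR x hx)
  have hVk : ∀ x, R ≤ x → V x ≤ (k : ℝ) ^ 2 := fun x hx => by have := hV2 x hx; linarith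
  -- `(y - R) u(y)² ≤ - g1(R)`
  have key : ∀ y, R ≤ y → (y - R) * u y ^ 2 ≤ -(2 * u R * u1 R) := by
    intro y hy
    -- on `[R, y]` the function `g1 t - u(y)² t` increases; use a cut-off free version
    have hmono : MonotoneOn (fun t => 2 * u t * u1 t - u y ^ 2 * t) (Set.Icc R y) := by
      apply monotoneOn_of_deriv_nonneg (convex_Icc R y)
      · exact fun t _ => ((H.g1 t).fun_sub ((hasDerivAt_id' t).const_mul (u y ^ 2))).continuousAt.continuousWithinAt
      · exact fun t _ => ((H.g1 t).fun_sub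
          ((hasDerivAt_id' t).const_mul (u y ^ 2))).differentiableAt.differentiableWithinAt
      · intro t ht
        have ht' := interior_subset ht
        have hd := (H.g1 t).fun_sub ((hasDerivAt_id' t).const_mul (u y ^ 2))
        have e : deriv (fun t => 2 * u t * u1 t - u y ^ 2 * t) t =
            2 * u1 t ^ 2 + 2 * ((k : ℝ) ^ 2 - V t) * u t ^ 2 - u y ^ 2 * 1 := hd.deriv
        rw [e]
        have h1 := H.g_anti hVk ht'.1 ht'.2
        have h2 := hV2 t ht'.1
        have h3 : u t ^ 2 ≤ 2 * ((k : ℝ) ^ 2 - V t) * u t ^ 2 := by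
          have : (1 : ℝ) ≤ 2 * ((k : ℝ) ^ 2 - V t) := by linarith
          nlinarith [sq_nonneg (u t)]
        have := sq_nonneg (u1 t)
        linarith
    have h1 := hmono (Set.left_mem_Icc.2 hy) (Set.right_mem_Icc.2 hy) hy
    simp only at h1
    have h2 := H.g1_nonpos hVk y hy
    linarith
  have hsq : Tendsto (fun y => u y ^ 2) atTop (𝓝 0) := by
    have h1 : Tendsto (fun y : ℝ => -(2 * u R * u1 R) / (y - R)) atTop (𝓝 0) :=
      Tendsto.const_div_atTop (tendsto_atTop_add_const_right _ _ tendsto_id) _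
    refine squeeze_zero' (Eventually.of_forall fun y => sq_nonneg _) ?_ h1
    filter_upwards [eventually_gt_atTop R] with y hy
    rw [le_div_iff₀ (by linarith), mul_comm]
    exact key y hy.le
  have h2 : Tendsto (fun y => |u y|) atTop (𝓝 0) := by
    have := (Real.continuous_sqrt.tendsto 0).comp hsq
    simpa [Function.comp_def, Real.sqrt_sq_eq_abs] using this
  exact (tendsto_zero_iff_abs_tendsto_zero _).2 h2

/-- `k = 0`: decay of the derivative -/
lemma Hyp.u1_small (H : Hyp 0 B M V u u1) {a m : ℝ} (ha : 0 ≤ a) (hm : ∀ x, a ≤ x → |u x| ≤ m)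
    (x : ℝ) (hx : a ≤ x) : |u1 x| ≤ B * m / 2 * Real.exp (-2 * x) := by
  have hB := H.B_nonneg
  have hm0 : 0 ≤ m := (abs_nonneg _).trans (hm a le_rfl)
  -- the general one-sided claim
  have aux : ∀ s : ℝ, (s = 1 ∨ s = -1) → -(B * m / 2 * Real.exp (-2 * x)) ≤ s * u1 x := by
    intro s hs
    by_contra hc
    push Not at hc
    have hs1 : |s| = 1 := by rcases hs with h | h <;> rw [h] <;> simp
    -- `s u1 + (B m / 2) e^{-2t}` is nonincreasing on `[a, ∞)`
    have hmono : ∀ y, x ≤ y → s * u1 y ≤ s * u1 x + B * m / 2 * Real.exp (-2 * x) := by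
      intro y hy
      have := mono_of (f := fun t => -(s * u1 t + B * m / 2 * Real.exp (-2 * t)))
        (f' := fun t => -(s * ((((0 : ℕ) : ℝ) ^ 2 - V t) * u t) + B * m / 2 * (Real.exp (-2 * t) * -2)))
        (a := a)
        (fun t => by
          have h1 := (H.hu1 t).const_mul s
          have h2 : HasDerivAt (fun t : ℝ => Real.exp (-2 * t)) (Real.exp (-2 * t) * -2) t := by
            have := ((hasDerivAt_id t).const_mul (-2 : ℝ)).exp
            simpa using this
          exact (h1.fun_add (h2.const_mul (B * m / 2))).fun_neg)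
        (fun t ht => by
          have h1 := H.hV t
          rw [abs_of_nonneg (ha.trans ht)] at h1
          have h2 := hm t ht
          have h3 : |s * ((((0 : ℕ) : ℝ) ^ 2 - V t) * u t)| ≤ B * m * Real.exp (-2 * t) := by
            rw [abs_mul, hs1, one_mul, abs_mul]
            have h4 : |((0 : ℕ) : ℝ) ^ 2 - V t| = V t := by
              rw [Nat.cast_zero, zero_pow (by norm_num), zero_sub, abs_neg, abs_of_nonneg h1.1]
            rw [h4]
            calc V t * |u t| ≤ (B * Real.exp (-2 * t)) * m :=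
                  mul_le_mul h1.2 h2 (abs_nonneg _) (by positivity)
              _ = _ := by ring
          have h5 := (abs_le.1 h3).2
          have h6 : B * m / 2 * (Real.exp (-2 * t) * -2) = -(B * m * Real.exp (-2 * t)) := by ring
          rw [h6]
          linarith) hx hy
      have h6 : 0 ≤ B * m / 2 * Real.exp (-2 * y) := by positivity
      linarith
    set η : ℝ := -(s * u1 x + B * m / 2 * Real.exp (-2 * x)) with hη
    have hη0 : 0 < η := by rw [hη]; linarith
    -- then `s u` tends to `-∞`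
    have hlin : ∀ y, x ≤ y → s * u y ≤ s * u x - η * (y - x) := by
      intro y hy
      have := mono_of (f := fun t => -(s * u t) - η * t) (f' := fun t => -(s * u1 t) - η)
        (a := x)
        (fun t => by
          have h1 := ((H.hu t).const_mul s).fun_neg.fun_sub ((hasDerivAt_id' t).const_mul η)
          simpa using h1)
        (fun t ht => by have := hmono t ht; linarith) le_rfl hy
      linarith
    have hb : ∀ t, |s * u t| ≤ M := fun t => by rw [abs_mul, hs1, one_mul]; exact H.hM t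
    set y : ℝ := x + (2 * M + 1) / η with hy
    have hM0 := H.M_nonneg
    have hxy : x ≤ y := by
      have : 0 ≤ (2 * M + 1) / η := by positivity
      linarith
    have h1 := hlin y hxy
    have h2 : η * (y - x) = 2 * M + 1 := by rw [hy]; field_simp; ring
    have h3 := (abs_le.1 (hb x)).2
    have h4 := (abs_le.1 (hb y)).1
    linarith
  rw [abs_le]
  have h1 := aux 1 (Or.inl rfl)
  have h2 := aux (-1) (Or.inr rfl)
  constructor <;> linarith

/-- `k = 0`: comparison of two values -/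
lemma Hyp.u_diff (H : Hyp 0 B M V u u1) {a m : ℝ} (ha : 0 ≤ a) (hm : ∀ x, a ≤ x → |u x| ≤ m)
    (s : ℝ) (hs : s = 1 ∨ s = -1) {x y : ℝ} (hx : a ≤ x) (hxy : x ≤ y) :
    s * u y + B * m / 4 * Real.exp (-2 * y) ≤ s * u x + B * m / 4 * Real.exp (-2 * x) := by
  have := mono_of (f := fun t => -(s * u t + B * m / 4 * Real.exp (-2 * t)))
    (f' := fun t => -(s * u1 t + B * m / 4 * (Real.exp (-2 * t) * -2)))
    (a := a)
    (fun t => by
      have h2 : HasDerivAt (fun t : ℝ => Real.exp (-2 * t)) (Real.exp (-2 * t) * -2) t := by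
        have := ((hasDerivAt_id t).const_mul (-2 : ℝ)).exp
        simpa using this
      exact (((H.hu t).const_mul s).fun_add (h2.const_mul (B * m / 4))).fun_neg)
    (fun t ht => by
      have h1 := abs_le.1 (H.u1_small ha hm t ht)
      rcases hs with h | h <;> rw [h] <;> linarith [h1.1, h1.2]) hx hxy
  linarith

lemma Hyp.tendsto_zero (H : Hyp 0 B M V u u1) : ∃ ℓ, Tendsto u atTop (𝓝 ℓ) := by
  have hB := H.B_nonneg
  have hM0 := H.M_nonneg
  set f : ℝ → ℝ := fun x => u (max x 0) + B * M / 4 * Real.exp (-2 * (max x 0)) with hf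
  have hanti : Antitone f := by
    intro x y hxy
    have := H.u_diff (a := 0) (m := M) le_rfl (fun t _ => H.hM t) 1 (Or.inl rfl)
      (x := max x 0) (y := max y 0) (le_max_right _ _) (max_le_max_right 0 hxy)
    simp only [hf]
    linarith
  have hbdd : BddBelow (Set.range f) := by
    refine ⟨-M, ?_⟩
    rintro _ ⟨x, rfl⟩
    have h1 := (abs_le.1 (H.hM (max x 0))).1
    have h2 : 0 ≤ B * M / 4 * Real.exp (-2 * (max x 0)) := by positivity
    simp only [hf]
    linarith
  have h1 := tendsto_atTop_ciInf hanti hbdd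
  have h2 : Tendsto (fun x : ℝ => B * M / 4 * Real.exp (-2 * x)) atTop (𝓝 0) := by
    have h3 : Tendsto (fun x : ℝ => -2 * x) atTop atBot :=
      tendsto_id.const_mul_atTop_of_neg (by norm_num)
    have h4 := (Real.tendsto_exp_atBot.comp h3).const_mul (B * M / 4)
    simpa [Function.comp_def] using h4
  refine ⟨_, (h1.sub h2).congr' ?_⟩
  filter_upwards [eventually_ge_atTop (0 : ℝ)] with x hx
  simp only [hf, max_eq_left hx]
  ring

/-- uniqueness -/
lemma Hyp.unique (H : Hyp k B M V u u1) {x₀ : ℝ} (h0 : u x₀ = 0) (h1 : u1 x₀ = 0) (x : ℝ) :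
    u x = 0 := by
  set C : ℝ := 1 + (k : ℝ) ^ 2 + B with hC
  have hB := H.B_nonneg
  have hE : ∀ t, HasDerivAt (fun t => u t ^ 2 + u1 t ^ 2)
      (2 * u t * u1 t + 2 * u1 t * (((k : ℝ) ^ 2 - V t) * u t)) t := by
    intro t
    have := (H.g t).fun_add ((H.hu1 t).fun_pow 2)
    simpa [mul_assoc] using this
  have hbound : ∀ t, |2 * u t * u1 t + 2 * u1 t * (((k : ℝ) ^ 2 - V t) * u t)| ≤
      C * (u t ^ 2 + u1 t ^ 2) := by
    intro t
    have e : 2 * u t * u1 t + 2 * u1 t * (((k : ℝ) ^ 2 - V t) * u t) =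
        (1 + (k : ℝ) ^ 2 - V t) * (2 * (u t * u1 t)) := by ring
    rw [e, abs_mul]
    have h2 : |1 + (k : ℝ) ^ 2 - V t| ≤ C := by
      rw [abs_le]
      have a1 := (H.hV t).1
      have a2 := H.V_le t
      have a3 : 0 ≤ (k : ℝ) ^ 2 := by positivity
      constructor <;> linarith
    have h3 : |2 * (u t * u1 t)| ≤ u t ^ 2 + u1 t ^ 2 := by
      rw [abs_le]
      constructor <;> nlinarith [sq_nonneg (u t - u1 t), sq_nonneg (u t + u1 t)]
    exact mul_le_mul h2 h3 (abs_nonneg _) (by positivity)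
  have hexp : ∀ c t : ℝ, HasDerivAt (fun t => Real.exp (c * t)) (Real.exp (c * t) * c) t := by
    intro c t
    have := ((hasDerivAt_id t).const_mul c).exp
    simpa using this
  have hE0 : u x₀ ^ 2 + u1 x₀ ^ 2 = 0 := by rw [h0, h1]; norm_num
  have hfin : u x ^ 2 + u1 x ^ 2 ≤ 0 := by
    rcases le_total x₀ x with hx | hx
    · have := mono_of (f := fun t => -((u t ^ 2 + u1 t ^ 2) * Real.exp (-C * t)))
        (f' := fun t => -((2 * u t * u1 t + 2 * u1 t * (((k : ℝ) ^ 2 - V t) * u t)) * Real.exp (-C * t) +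
          (u t ^ 2 + u1 t ^ 2) * (Real.exp (-C * t) * -C))) (a := x₀)
        (fun t => ((hE t).fun_mul (hexp (-C) t)).fun_neg)
        (fun t _ => by
          have h2 := (abs_le.1 (hbound t)).2
          have h3 := Real.exp_pos (-C * t)
          nlinarith) le_rfl hx
      simp only [hE0] at this
      have h3 := Real.exp_pos (-C * x)
      by_contra hc
      push Not at hc
      have := mul_pos hc h3
      linarith
    · -- reflect
      have := mono_of (f := fun t => (u t ^ 2 + u1 t ^ 2) * Real.exp (C * t))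
        (f' := fun t => (2 * u t * u1 t + 2 * u1 t * (((k : ℝ) ^ 2 - V t) * u t)) * Real.exp (C * t) +
          (u t ^ 2 + u1 t ^ 2) * (Real.exp (C * t) * C)) (a := x)
        (fun t => ((hE t).fun_mul (hexp C t)))
        (fun t _ => by
          have h2 := (abs_le.1 (hbound t)).1
          have h3 := Real.exp_pos (C * t)
          nlinarith) le_rfl hx
      simp only [hE0] at this
      have h3 := Real.exp_pos (C * x)
      by_contra hc
      push Not at hc
      have := mul_pos hc h3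
      linarith
  have h4 : u x ^ 2 = 0 := by nlinarith [sq_nonneg (u x), sq_nonneg (u1 x)]
  exact pow_eq_zero_iff (by norm_num) |>.1 h4

/-- a solution vanishing on a half line vanishes -/
lemma Hyp.zero_of_half (H : Hyp k B M V u u1) {z : ℝ} (hz : ∀ x, z ≤ x → u x = 0) (x : ℝ) :
    u x = 0 := by
  have h1 : HasDerivAt u 0 (z + 1) := by
    have : HasDerivAt (fun _ : ℝ => (0 : ℝ)) 0 (z + 1) := hasDerivAt_const _ _
    refine this.congr_of_eventuallyEq ?_
    filter_upwards [lt_mem_nhds (show z < z + 1 by linarith)] with t ht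
    exact hz t ht.le
  exact H.unique (x₀ := z + 1) (hz _ (by linarith)) ((H.hu (z + 1)).unique h1) x

lemma Hyp.no_zero (H : Hyp k B M V u u1) {R : ℝ} (hR : 0 ≤ R) (hB : B * Real.exp (-2 * R) < 1)
    {z : ℝ} (hz : R ≤ z) (hu : u z = 0) (x : ℝ) : u x = 0 := by
  have hVR : ∀ t, R ≤ t → V t < 1 := by
    intro t ht
    have h1 := (H.hV t).2
    rw [abs_of_nonneg (hR.trans ht)] at h1
    have h2 : Real.exp (-2 * t) ≤ Real.exp (-2 * R) := Real.exp_le_exp.2 (by linarith)
    have h3 := H.B_nonneg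
    nlinarith
  apply H.zero_of_half (z := z)
  intro y hy
  rcases Nat.eq_zero_or_pos k with hk | hk
  · subst hk
    have hz0 : 0 ≤ z := hR.trans hz
    set S : Set ℝ := (fun t => |u t|) '' Set.Ici z with hS
    have hbdd : BddAbove S := ⟨M, by rintro _ ⟨t, _, rfl⟩; exact H.hM t⟩
    have hne : S.Nonempty := ⟨_, z, Set.mem_Ici.2 le_rfl, rfl⟩
    set m : ℝ := sSup S with hm
    have hle : ∀ t, z ≤ t → |u t| ≤ m := fun t ht => le_csSup hbdd ⟨t, ht, rfl⟩
    have hm0 : 0 ≤ m := (abs_nonneg _).trans (hle z le_rfl)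
    have hBz : B * Real.exp (-2 * z) ≤ 1 := by
      have h2 : Real.exp (-2 * z) ≤ Real.exp (-2 * R) := Real.exp_le_exp.2 (by linarith)
      have h3 := H.B_nonneg
      nlinarith
    have hle4 : ∀ t, z ≤ t → |u t| ≤ m / 4 := by
      intro t ht
      have h1 := H.u_diff hz0 hle 1 (Or.inl rfl) le_rfl ht
      have h2 := H.u_diff hz0 hle (-1) (Or.inr rfl) le_rfl ht
      rw [hu] at h1 h2
      have h3 : 0 ≤ B * m / 4 * Real.exp (-2 * t) := by
        have := H.B_nonneg
        positivity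
      have h4 : B * m / 4 * Real.exp (-2 * z) ≤ m / 4 := by
        have : B * m / 4 * Real.exp (-2 * z) = (m / 4) * (B * Real.exp (-2 * z)) := by ring
        rw [this]
        nlinarith
      rw [abs_le]
      constructor <;> linarith
    have hm4 : m ≤ m / 4 := csSup_le hne (by rintro _ ⟨t, ht, rfl⟩; exact hle4 t ht)
    have hm00 : m = 0 := by linarith
    have := hle y hy
    rw [hm00] at this
    exact abs_eq_zero.1 (le_antisymm this (abs_nonneg _))
  · have hk1 : (1 : ℝ) ≤ (k : ℝ) ^ 2 := by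
      have : (1 : ℝ) ≤ k := by exact_mod_cast hk
      nlinarith
    have h1 := H.g_anti (a := R) (fun t ht => ((hVR t ht).le.trans hk1)) hz hy
    rw [hu] at h1
    have h2 : u y ^ 2 = 0 := by nlinarith [sq_nonneg (u y)]
    exact pow_eq_zero_iff (by norm_num) |>.1 h2

lemma Hyp.lim (H : Hyp k B M V u u1) : ∃ ℓ, Tendsto u atTop (𝓝 ℓ) ∧ (k ≠ 0 → ℓ = 0) := by
  rcases Nat.eq_zero_or_pos k with hk | hk
  · subst hk
    obtain ⟨ℓ, h⟩ := H.tendsto_zero
    exact ⟨ℓ, h, fun h => absurd rfl h⟩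
  · exact ⟨0, H.tendsto_pos (by omega), fun _ => rfl⟩

theorem asy : S_ASY := by
  intro k B M V u u1 _ hV hu hu1 hM
  have H : Hyp k B M V u u1 := ⟨hV, hu, hu1, hM⟩
  refine ⟨?_, ?_, ?_, ?_⟩
  · obtain ⟨ℓ₁, h1, h1'⟩ := H.lim
    obtain ⟨ℓ₂, h2, h2'⟩ := H.refl.lim
    refine ⟨ℓ₁, ℓ₂, h1, ?_, fun hk => ⟨h1' hk, h2' hk⟩⟩
    have := h2.comp tendsto_neg_atBot_atTop
    simpa [Function.comp_def] using this
  · refine ⟨2 * M + ((k : ℝ) ^ 2 + B) * M, fun x => ?_⟩
    obtain ⟨c, hc, hcs⟩ := exists_hasDerivAt_eq_slope u u1 (show x < x + 1 by linarith)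
      (fun t _ => (hu t).continuousAt.continuousWithinAt) (fun t _ => hu t)
    have h1 : |u1 c| ≤ 2 * M := by
      rw [hcs]
      have a1 := abs_le.1 (hM x)
      have a2 := abs_le.1 (hM (x + 1))
      rw [show x + 1 - x = 1 by ring, div_one, abs_le]
      constructor <;> linarith [a1.1, a1.2, a2.1, a2.2]
    have hB := H.B_nonneg
    have hM0 := H.M_nonneg
    have h2 : ∀ t, |((k : ℝ) ^ 2 - V t) * u t| ≤ ((k : ℝ) ^ 2 + B) * M := by
      intro t
      rw [abs_mul]
      apply mul_le_mul _ (hM t) (abs_nonneg _) (by positivity)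
      rw [abs_le]
      have a1 := (H.hV t).1
      have a2 := H.V_le t
      have a3 : 0 ≤ (k : ℝ) ^ 2 := by positivity
      constructor <;> linarith
    obtain ⟨e, he, hes⟩ := exists_hasDerivAt_eq_slope u1 (fun t => ((k : ℝ) ^ 2 - V t) * u t) hc.1
      (fun t _ => (hu1 t).continuousAt.continuousWithinAt) (fun t _ => hu1 t)
    have h3 : u1 c - u1 x = ((k : ℝ) ^ 2 - V e) * u e * (c - x) := by
      have : c - x ≠ 0 := sub_ne_zero.2 hc.1.ne'
      rw [hes]
      field_simp
    have h4 : |u1 c - u1 x| ≤ ((k : ℝ) ^ 2 + B) * M := by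
      rw [h3, abs_mul]
      have h5 : |c - x| ≤ 1 := by
        rw [abs_le]
        constructor <;> linarith [hc.1, hc.2]
      calc |((k : ℝ) ^ 2 - V e) * u e| * |c - x| ≤ ((k : ℝ) ^ 2 + B) * M * 1 :=
            mul_le_mul (h2 e) h5 (abs_nonneg _) (by positivity)
        _ = _ := mul_one _
    have h6 : |u1 x| ≤ |u1 c| + |u1 c - u1 x| := by
      have := abs_sub_abs_le_abs_sub (u1 x) (u1 c)
      rw [abs_sub_comm (u1 x)] at this
      linarith
    linarith
  · intro R hR hBR hne x hx hux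
    obtain ⟨y, hy⟩ := hne
    rcases le_total 0 x with h0 | h0
    · rw [abs_of_nonneg h0] at hx
      exact hy (H.no_zero hR hBR hx hux y)
    · rw [abs_of_nonpos h0] at hx
      have := H.refl.no_zero hR hBR (z := -x) hx (by simpa using hux) (-y)
      exact hy (by simpa using this)
  · intro hBk
    have hVk : ∀ x, V x < (k : ℝ) ^ 2 := fun x => (H.V_le x).trans_lt hBk
    have h1 : ∀ x, 2 * u x * u1 x ≤ 0 := fun x => H.g1_nonpos (a := x) (fun t _ => (hVk t).le) x le_rfl
    have h2 : ∀ x, 0 ≤ 2 * u x * u1 x := by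
      intro x
      have := H.refl.g1_nonpos (a := -x) (fun t _ => (hVk (-t)).le) (-x) le_rfl
      simp only [neg_neg] at this
      linarith
    intro x
    have h3 : HasDerivAt (fun t => 2 * u t * u1 t) 0 x := by
      have e : (fun t => 2 * u t * u1 t) = fun _ => (0 : ℝ) := by
        funext t
        exact le_antisymm (h1 t) (h2 t)
      rw [e]
      exact hasDerivAt_const _ _
    have h4 := (H.g1 x).unique h3
    have h5 : 0 < (k : ℝ) ^ 2 - V x := by have := hVk x; linarith
    have h6 : u x ^ 2 = 0 := by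
      have a1 := sq_nonneg (u1 x)
      have a2 := sq_nonneg (u x)
      by_contra hc
      have a3 : 0 < u x ^ 2 := lt_of_le_of_ne a2 (Ne.symm hc)
      have := mul_pos h5 a3
      nlinarith
    exact pow_eq_zero_iff (by norm_num) |>.1 h6

end Pool.Agent.Y970.NL
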